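import Pool.Agent.Helper43.CRF.Main

/-!
# Bernoulli extensions of compact actions

Every compact metrizable space with a continuous action of a countable group has a Bernoulli
extension which is equivariantly Borel isomorphic to a continuous action on Cantor space.
-/

set_option autoImplicit false
set_option linter.unusedSectionVars false

open Set Topology Filter TopologicalSpace MulAction MeasureTheory

namespace Pool.Agent.Helper81.BA

open Pool.Agent.Helper43.CR Pool.Agent.Helper43.CRF

/-! ### Borel injections in both directions -/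

section cb

variable {Y Z ι : Type}

/-- The pieces of `Y` on which the bijection is `f`. -/
def part (f : Y → Z) (g : Z → Y) : ℕ → Set Y
  | 0 => (range g)ᶜ
  | n + 1 => (fun y => g (f y)) '' part f g n

theorem schroeder [MeasurableSpace Y] [StandardBorelSpace Y] [MeasurableSpace Z]
    [StandardBorelSpace Z] [Nonempty Z] (R : ι → Y → Y → Prop) (T : ι → Z → Z → Prop)
    (f : Y → Z) (g : Z → Y)
    (hf : Measurable f) (hg : Measurable g) (hfi : Function.Injective f)
    (hgi : Function.Injective g)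
    (hfR : ∀ i x y, R i x y ↔ T i (f x) (f y))
    (hgR : ∀ i x y, T i x y ↔ R i (g x) (g y))
    (hgs : ∀ i z y, R i (g z) y ∨ R i y (g z) → y ∈ range g)
    (hfs : ∀ i x z, T i (f x) z ∨ T i z (f x) → z ∈ range f) :
    ∃ F : Y → Z, Measurable F ∧ Function.Bijective F ∧
      ∀ i x y, R i x y ↔ T i (F x) (F y) := by
  classical
  have hge : MeasurableEmbedding g := hg.measurableEmbedding hgi
  have hgfe : MeasurableEmbedding (fun y => g (f y)) :=
    (hg.comp hf).measurableEmbedding (hgi.comp hfi)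
  have hpm : ∀ n, MeasurableSet (part f g n) := by
    intro n
    induction n with
    | zero => exact hge.measurableSet_range.compl
    | succ n ih => exact hgfe.measurableSet_image.2 ih
  obtain ⟨r, hr, hrg⟩ := hge.exists_measurable_extend measurable_id fun _ => inferInstance
  have hrg' : ∀ z, r (g z) = z := fun z => congrFun hrg z
  let A : Set Y := ⋃ n, part f g n
  have hA : MeasurableSet A := MeasurableSet.iUnion hpm
  have hAr : ∀ x, x ∉ A → g (r x) = x := by
    intro x hx
    have h1 : x ∈ range g := by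
      by_contra h
      exact hx (mem_iUnion.2 ⟨0, h⟩)
    obtain ⟨z, rfl⟩ := h1
    rw [hrg']
  have hAgf : ∀ x, x ∈ A → g (f x) ∈ A := by
    intro x hx
    obtain ⟨n, hn⟩ := mem_iUnion.1 hx
    exact mem_iUnion.2 ⟨n + 1, ⟨x, hn, rfl⟩⟩
  have hpinv : ∀ n i x y, x ∈ part f g n → (R i x y ∨ R i y x) → y ∈ part f g n := by
    intro n
    induction n with
    | zero =>
      rintro i x y hx hxy ⟨z, rfl⟩
      exact hx (hgs i z x hxy.symm)
    | succ n ih =>
      rintro i x y ⟨a, ha, rfl⟩ hxy
      obtain ⟨z, rfl⟩ := hgs i (f a) y hxy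
      have h1 : T i (f a) z ∨ T i z (f a) := by
        rcases hxy with h | h
        · exact Or.inl ((hgR i _ _).2 h)
        · exact Or.inr ((hgR i _ _).2 h)
      obtain ⟨b, rfl⟩ := hfs i a z h1
      have h2 : R i a b ∨ R i b a := by
        rcases h1 with h | h
        · exact Or.inl ((hfR i _ _).2 h)
        · exact Or.inr ((hfR i _ _).2 h)
      exact ⟨b, ih i a b ha h2, rfl⟩
  have hAinv : ∀ i x y, x ∈ A → (R i x y ∨ R i y x) → y ∈ A := by
    intro i x y hx hxy
    obtain ⟨n, hn⟩ := mem_iUnion.1 hx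
    exact mem_iUnion.2 ⟨n, hpinv n i x y hn hxy⟩
  refine ⟨fun x => if x ∈ A then f x else r x, Measurable.ite hA hf hr, ⟨?_, ?_⟩, ?_⟩
  · intro x y hxy
    beta_reduce at hxy
    by_cases hx : x ∈ A
    · by_cases hy : y ∈ A
      · rw [if_pos hx, if_pos hy] at hxy
        exact hfi hxy
      · rw [if_pos hx, if_neg hy] at hxy
        exfalso
        apply hy
        rw [← hAr y hy, ← hxy]
        exact hAgf x hx
    · by_cases hy : y ∈ A
      · rw [if_neg hx, if_pos hy] at hxy
        exfalso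
        apply hx
        rw [← hAr x hx, hxy]
        exact hAgf y hy
      · rw [if_neg hx, if_neg hy] at hxy
        rw [← hAr x hx, ← hAr y hy, hxy]
  · intro z
    by_cases hz : g z ∈ A
    · obtain ⟨n, hn⟩ := mem_iUnion.1 hz
      cases n with
      | zero => exact absurd ⟨z, rfl⟩ hn
      | succ n =>
        obtain ⟨y, hy, hyz⟩ := hn
        refine ⟨y, ?_⟩
        have hyA : y ∈ A := mem_iUnion.2 ⟨n, hy⟩
        beta_reduce
        rw [if_pos hyA]
        exact hgi hyz
    · refine ⟨g z, ?_⟩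
      beta_reduce
      rw [if_neg hz]
      exact hrg' z
  · intro i x y
    beta_reduce
    by_cases hx : x ∈ A
    · by_cases hy : y ∈ A
      · rw [if_pos hx, if_pos hy]
        exact hfR i x y
      · rw [if_pos hx, if_neg hy]
        constructor
        · intro h
          exact absurd (hAinv i x y hx (Or.inl h)) hy
        · intro h
          have h1 := (hgR i _ _).1 h
          rw [hAr y hy] at h1
          exact absurd (hAinv i _ y (hAgf x hx) (Or.inl h1)) hy
    · by_cases hy : y ∈ A
      · rw [if_neg hx, if_pos hy]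
        constructor
        · intro h
          exact absurd (hAinv i y x hy (Or.inr h)) hx
        · intro h
          have h1 := (hgR i _ _).1 h
          rw [hAr x hx] at h1
          exact absurd (hAinv i _ x (hAgf y hy) (Or.inr h1)) hx
      · rw [if_neg hx, if_neg hy, hgR i, hAr x hx, hAr y hy]

end cb

/-! ### The extension -/

/-- The set of pairs `(x, w)` such that `w` does not distinguish elements with the same germ
at `x`. -/
def BSet (Γ K : Type) [TopologicalSpace K] [Group Γ] [MulAction Γ K] : Set (K × (ℕ × Γ → Bool)) :=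
  {p | ∀ (n : ℕ) (g h : Γ), (∀ᶠ y in 𝓝 p.1, g • y = h • y) → p.2 (n, g) = p.2 (n, h)}

lemma bset_eq (Γ K : Type) [TopologicalSpace K] [Group Γ] [MulAction Γ K] :
    BSet Γ K = SSet Γ (fun _ : ℕ => (0 : C(K, ℝ))) := by
  ext p
  constructor
  · intro h
    exact ⟨fun n g => ⟨fun _ => le_refl _, fun _ => le_refl _⟩, fun n g h' hs => h n g h' hs⟩
  · intro h n g h' hs
    exact h.2 n g h' hs

/-- The sequence `f 0, 0, f 1, 0, f 2, 0, ...`. -/
def mix {K : Type} [TopologicalSpace K] (f : ℕ → C(K, ℝ)) (n : ℕ) : C(K, ℝ) :=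
  if n % 2 = 0 then f (n / 2) else 0

lemma mix_even {K : Type} [TopologicalSpace K] (f : ℕ → C(K, ℝ)) (n : ℕ) (h : n % 2 = 0) :
    mix f n = f (n / 2) := if_pos h

lemma mix_odd {K : Type} [TopologicalSpace K] (f : ℕ → C(K, ℝ)) (n : ℕ) (h : ¬ n % 2 = 0) :
    mix f n = 0 := if_neg h

/-- Countably many functions separating the points. -/
lemma exists_sep (K : Type) [MetricSpace K] [CompactSpace K] :
    ∃ f : ℕ → C(K, ℝ), ∀ x y, x ≠ y → ∃ n, f n x < 0 ∧ 0 < f n y := by
  classical
  by_cases hne : Nonempty K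
  · let d := denseSeq K
    let f : ℕ × ℚ → C(K, ℝ) := fun p => ⟨fun x => dist x (d p.1) - p.2, by fun_prop⟩
    obtain ⟨e, he⟩ := exists_surjective_nat (ℕ × ℚ)
    refine ⟨fun n => f (e n), ?_⟩
    intro x y hxy
    have h0 : 0 < dist x y := dist_pos.2 hxy
    obtain ⟨k, hk⟩ := (denseRange_denseSeq K).exists_dist_lt x (half_pos h0)
    have h1 : dist x (d k) < dist y (d k) := by
      have h2 := dist_triangle x (d k) y
      have h3 : dist (d k) y = dist y (d k) := dist_comm _ _
      have h4 : dist x (d k) < dist x y / 2 := hk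
      linarith
    obtain ⟨q, hq1, hq2⟩ := exists_rat_btwn h1
    obtain ⟨n, hn⟩ := he (k, q)
    refine ⟨n, ?_, ?_⟩
    · beta_reduce
      rw [hn]
      change dist x (d k) - q < 0
      linarith
    · beta_reduce
      rw [hn]
      change 0 < dist y (d k) - q
      linarith
  · refine ⟨fun _ => 0, ?_⟩
    intro x
    exact absurd ⟨x⟩ hne

section main

variable {K Γ : Type} [MetricSpace K] [CompactSpace K] [Group Γ] [Countable Γ]
  [MulAction Γ K] [ContinuousConstSMul Γ K]

/-- Flipping one odd coordinate. -/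
lemma flip_mem (f : ℕ → C(K, ℝ)) (x : K) (w : ℕ × Γ → Bool) (h : (x, w) ∈ SSet Γ (mix f))
    (m : ℕ) : (x, fun q : ℕ × Γ => if q.1 = 2 * m + 1 then ! w q else w q) ∈ SSet Γ (mix f) := by
  refine ⟨fun n g => ?_, fun n g k hs => ?_⟩
  · by_cases hn : n = 2 * m + 1
    · have h1 : mix f n = 0 := mix_odd f n (by omega)
      rw [h1]
      exact ⟨fun _ => le_refl _, fun _ => le_refl _⟩
    · have h1 := h.1 n g
      change ((if n = 2 * m + 1 then ! w (n, g) else w (n, g)) = true → 0 ≤ mix f n (g • x)) ∧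
        ((if n = 2 * m + 1 then ! w (n, g) else w (n, g)) = false → mix f n (g • x) ≤ 0)
      rw [if_neg hn]
      exact h1
  · have h1 : w (n, g) = w (n, k) := h.2 n g k hs
    change (if n = 2 * m + 1 then ! w (n, g) else w (n, g)) =
      (if n = 2 * m + 1 then ! w (n, k) else w (n, k))
    rw [h1]

/-- The cut extension with free coordinates is homeomorphic to Cantor space. -/
theorem mix_homeo [Nonempty K] (f : ℕ → C(K, ℝ))
    (hsep : ∀ x y, x ≠ y → ∃ n, f n x < 0 ∧ 0 < f n y) :
    Nonempty (Sp Γ (mix f) ≃ₜ (ℕ → Bool)) := by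
  classical
  obtain ⟨en, hen⟩ := exists_surjective_nat (ℕ × Γ)
  have hne : Nonempty (Sp Γ (mix f)) := by
    obtain ⟨x⟩ := (inferInstance : Nonempty K)
    obtain ⟨w, hw⟩ := sset_nonempty (Γ := Γ) (mix f) x
    exact ⟨⟨(x, w), hw⟩⟩
  refine brouwer (Sp Γ (mix f)) (fun n => {s | s.1.2 (en n) = true}) ?_ ?_ ?_
  · intro n
    have hc : Continuous (fun s : Sp Γ (mix f) => s.1.2 (en n)) :=
      (continuous_apply _).comp (continuous_snd.comp continuous_subtype_val)
    exact (isClopen_discrete {true}).preimage hc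
  · intro x y hxy
    have h4 : x.1.2 ≠ y.1.2 := by
      intro hω
      apply hxy
      apply Subtype.ext
      refine Prod.ext ?_ hω
      by_contra hne'
      obtain ⟨n, hn1, hn2⟩ := hsep _ _ hne'
      have hx := (x.2.1 (2 * n) (1 : Γ))
      have hy := (y.2.1 (2 * n) (1 : Γ))
      have hm : mix f (2 * n) = f n := by
        rw [mix_even f (2 * n) (by omega), Nat.mul_div_cancel_left n two_pos]
      rw [one_smul, hm] at hx hy
      cases hval : x.1.2 (2 * n, 1) with
      | true => exact absurd (hx.1 hval) (not_le.2 hn1)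
      | false =>
        rw [hω] at hval
        exact absurd (hy.2 hval) (not_le.2 hn2)
    obtain ⟨p, hp⟩ := Function.ne_iff.1 h4
    obtain ⟨n, rfl⟩ := hen p
    refine ⟨n, ?_⟩
    intro hiff
    apply hp
    have h5 : (x.1.2 (en n) = true) ↔ (y.1.2 (en n) = true) := hiff
    exact Bool.eq_iff_iff.2 h5
  · intro s U hU hsU
    let t : ℕ → Sp Γ (mix f) := fun m => ⟨_, flip_mem f s.1.1 s.1.2 s.2 m⟩
    have ht : Tendsto t atTop (𝓝 s) := by
      rw [tendsto_subtype_rng]
      have h1 : Tendsto (fun m => (s.1.1, fun q : ℕ × Γ =>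
          if q.1 = 2 * m + 1 then ! s.1.2 q else s.1.2 q)) atTop (𝓝 (s.1.1, s.1.2)) := by
        refine Tendsto.prodMk_nhds tendsto_const_nhds ?_
        rw [tendsto_pi_nhds]
        intro q
        apply tendsto_const_nhds.congr'
        filter_upwards [eventually_gt_atTop q.1] with m hm
        rw [if_neg (by omega)]
      exact h1
    obtain ⟨m, hm⟩ := (ht.eventually (hU.mem_nhds hsU)).exists
    refine ⟨t m, hm, ?_⟩
    intro hcon
    have h1 : (t m).1.2 (2 * m + 1, (1 : Γ)) = s.1.2 (2 * m + 1, 1) := by rw [hcon]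
    have h2 : (t m).1.2 (2 * m + 1, (1 : Γ)) = ! s.1.2 (2 * m + 1, 1) := if_pos rfl
    rw [h2] at h1
    revert h1
    cases s.1.2 (2 * m + 1, (1 : Γ)) <;> simp

/-- The forgetful map. -/
def down (f : ℕ → C(K, ℝ)) (s : Sp Γ (mix f)) : BSet Γ K :=
  ⟨s.1, fun n g h hs => s.2.2 n g h hs⟩

lemma upc_mem (f : ℕ → C(K, ℝ)) (s : BSet Γ K) :
    (s.1.1, fun q : ℕ × Γ => if q.1 % 2 = 0 then decide (0 ≤ f (q.1 / 2) (q.2 • s.1.1))
      else s.1.2 (q.1 / 2, q.2)) ∈ SSet Γ (mix f) := by
  refine ⟨fun n g => ?_, fun n g k hs => ?_⟩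
  · by_cases hn : n % 2 = 0
    · change ((if n % 2 = 0 then decide (0 ≤ f (n / 2) (g • s.1.1)) else s.1.2 (n / 2, g)) = true →
        0 ≤ mix f n (g • s.1.1)) ∧
        ((if n % 2 = 0 then decide (0 ≤ f (n / 2) (g • s.1.1)) else s.1.2 (n / 2, g)) = false →
        mix f n (g • s.1.1) ≤ 0)
      rw [if_pos hn, mix_even f n hn]
      refine ⟨fun h => of_decide_eq_true h, fun h => ?_⟩
      exact (not_le.1 (of_decide_eq_false h)).le
    · rw [mix_odd f n hn]
      exact ⟨fun _ => le_refl _, fun _ => le_refl _⟩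
  · have h1 : g • s.1.1 = k • s.1.1 := hs.self_of_nhds
    have h2 : ∀ n, s.1.2 (n, g) = s.1.2 (n, k) := fun n => s.2 n g k hs
    change (if n % 2 = 0 then decide (0 ≤ f (n / 2) (g • s.1.1)) else s.1.2 (n / 2, g)) =
      (if n % 2 = 0 then decide (0 ≤ f (n / 2) (k • s.1.1)) else s.1.2 (n / 2, k))
    rw [h1, h2]

/-- The section with signs. -/
noncomputable def upc (f : ℕ → C(K, ℝ)) (s : BSet Γ K) : Sp Γ (mix f) := ⟨_, upc_mem f s⟩

lemma bset_smul (g : Γ) (p : K × (ℕ × Γ → Bool)) (h : p ∈ BSet Γ K) :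
    (g • p.1, fun q : ℕ × Γ => p.2 (q.1, q.2 * g)) ∈ BSet Γ K := by
  rw [bset_eq] at h ⊢
  exact sset_smul _ g p.1 p.2 h

lemma isClosed_bset : IsClosed (BSet Γ K) := by
  rw [bset_eq]
  exact sset_isClosed _

/-- The action on the Bernoulli extension. -/
def bact (g : Γ) (s : BSet Γ K) : BSet Γ K :=
  ⟨(g • s.1.1, fun q : ℕ × Γ => s.1.2 (q.1, q.2 * g)), bset_smul g s.1 s.2⟩

lemma bact_one (s : BSet Γ K) : bact 1 s = s := by
  apply Subtype.ext
  change ((1 : Γ) • s.1.1, fun q : ℕ × Γ => s.1.2 (q.1, q.2 * 1)) = s.1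
  simp

lemma bact_mul (g h : Γ) (s : BSet Γ K) : bact (g * h) s = bact g (bact h s) := by
  apply Subtype.ext
  change ((g * h) • s.1.1, fun q : ℕ × Γ => s.1.2 (q.1, q.2 * (g * h))) =
    (g • h • s.1.1, fun q : ℕ × Γ => s.1.2 (q.1, q.2 * g * h))
  simp [mul_smul, mul_assoc]

lemma bact_inv (g : Γ) (s : BSet Γ K) : bact g⁻¹ (bact g s) = s := by
  rw [← bact_mul, inv_mul_cancel, bact_one]

lemma down_smul (f : ℕ → C(K, ℝ)) (g : Γ) (s : Sp Γ (mix f)) :
    down f (g • s) = bact g (down f s) := rfl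

lemma upc_smul (f : ℕ → C(K, ℝ)) (g : Γ) (s : BSet Γ K) :
    upc f (bact g s) = g • upc f s := by
  apply Subtype.ext
  refine Prod.ext rfl ?_
  funext q
  change (if q.1 % 2 = 0 then decide (0 ≤ f (q.1 / 2) (q.2 • g • s.1.1))
      else s.1.2 (q.1 / 2, q.2 * g)) = (if q.1 % 2 = 0 then
      decide (0 ≤ f (q.1 / 2) ((q.2 * g) • s.1.1)) else s.1.2 (q.1 / 2, q.2 * g))
  rw [mul_smul]

lemma down_injective (f : ℕ → C(K, ℝ)) : Function.Injective (down (Γ := Γ) f) := by
  intro s t h
  have h1 : (down f s).1 = (down f t).1 := congrArg Subtype.val h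
  exact Subtype.ext h1

lemma upc_injective (f : ℕ → C(K, ℝ)) : Function.Injective (upc (Γ := Γ) f) := by
  intro s t h
  have h0 : (upc f s).1 = (upc f t).1 := congrArg Subtype.val h
  have h1' : (upc f s).1.1 = (upc f t).1.1 := congrArg Prod.fst h0
  have h1 : s.1.1 = t.1.1 := h1'
  have h2 : (upc f s).1.2 = (upc f t).1.2 := congrArg Prod.snd h0
  apply Subtype.ext
  refine Prod.ext h1 ?_
  funext q
  have h3 := congrFun h2 (2 * q.1 + 1, q.2)
  change (if (2 * q.1 + 1) % 2 = 0 then decide (0 ≤ f ((2 * q.1 + 1) / 2) (q.2 • s.1.1))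
      else s.1.2 ((2 * q.1 + 1) / 2, q.2)) =
    (if (2 * q.1 + 1) % 2 = 0 then decide (0 ≤ f ((2 * q.1 + 1) / 2) (q.2 • t.1.1))
      else t.1.2 ((2 * q.1 + 1) / 2, q.2)) at h3
  have h4 : ¬ (2 * q.1 + 1) % 2 = 0 := by omega
  have h5 : (2 * q.1 + 1) / 2 = q.1 := by omega
  rw [if_neg h4, if_neg h4, h5] at h3
  exact h3

section meas

variable [MeasurableSpace K] [BorelSpace K]

lemma measurable_down (f : ℕ → C(K, ℝ)) : Measurable (down (Γ := Γ) f) := by
  apply Measurable.subtype_mk
  exact measurable_subtype_coe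

lemma measurable_upc (f : ℕ → C(K, ℝ)) : Measurable (upc (Γ := Γ) f) := by
  apply Measurable.subtype_mk
  have hfst : Measurable (fun s : BSet Γ K => s.1.1) := measurable_fst.comp measurable_subtype_coe
  have hsnd : Measurable (fun s : BSet Γ K => s.1.2) := measurable_snd.comp measurable_subtype_coe
  refine Measurable.prodMk hfst ?_
  rw [measurable_pi_iff]
  intro q
  by_cases hq : q.1 % 2 = 0
  · simp only [if_pos hq]
    apply measurable_to_bool
    have h1 : (fun s : BSet Γ K => decide (0 ≤ f (q.1 / 2) (q.2 • s.1.1))) ⁻¹' {true} =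
        (fun s : BSet Γ K => s.1.1) ⁻¹' {x | 0 ≤ f (q.1 / 2) (q.2 • x)} := by
      ext s
      simp
    rw [h1]
    apply hfst
    apply IsClosed.measurableSet
    exact isClosed_le continuous_const ((f (q.1 / 2)).continuous.comp (continuous_const_smul q.2))
  · simp only [if_neg hq]
    exact (measurable_pi_apply _).comp hsnd

/-- The Bernoulli extension is isomorphic to an action on Cantor space. -/
theorem main_iso [Nonempty K] :
    ∃ (_ : MulAction Γ (ℕ → Bool)) (_ : ContinuousConstSMul Γ (ℕ → Bool))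
      (F : BSet Γ K → (ℕ → Bool)), Measurable F ∧ Function.Bijective F ∧
        ∀ (g : Γ) (s : BSet Γ K), F (bact g s) = g • F s := by
  classical
  obtain ⟨f, hf⟩ := exists_sep K
  obtain ⟨e⟩ := mix_homeo (Γ := Γ) f hf
  have hpol : PolishSpace (BSet Γ K) := isClosed_bset.polishSpace
  have hne : Nonempty (Sp Γ (mix f)) := ⟨e.symm (fun _ => true)⟩
  obtain ⟨F, hF1, hF2, hF3⟩ := schroeder (ι := Γ) (Y := BSet Γ K) (Z := Sp Γ (mix f))
    (fun g s t => t = bact g s) (fun g s t => t = g • s) (upc f) (down f)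
    (measurable_upc f) (measurable_down f) (upc_injective f) (down_injective f)
    (by
      intro g x y
      rw [← upc_smul]
      exact (upc_injective f).eq_iff.symm)
    (by
      intro g x y
      rw [← down_smul]
      exact (down_injective f).eq_iff.symm)
    (by
      rintro g z y (h | h)
      · exact ⟨g • z, by rw [down_smul, h]⟩
      · refine ⟨g⁻¹ • z, ?_⟩
        have h1 : bact g (down f (g⁻¹ • z)) = bact g y := by
          rw [← down_smul, smul_inv_smul, h]
        rw [← bact_inv g (down f (g⁻¹ • z)), h1, bact_inv])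
    (by
      rintro g x z (h | h)
      · exact ⟨bact g x, by rw [upc_smul, h]⟩
      · refine ⟨bact g⁻¹ x, ?_⟩
        rw [upc_smul, h, inv_smul_smul])
  let a1 : MulAction Γ (ℕ → Bool) :=
    { smul := fun g z => e (g • e.symm z)
      one_smul := by
        intro z
        change e ((1 : Γ) • e.symm z) = z
        rw [one_smul, e.apply_symm_apply]
      mul_smul := by
        intro g h z
        change e ((g * h) • e.symm z) = e (g • e.symm (e (h • e.symm z)))
        rw [e.symm_apply_apply, mul_smul] }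
  have ha : ∀ (g : Γ) (z : ℕ → Bool), g • z = e (g • e.symm z) := fun g z => rfl
  refine ⟨a1, ⟨?_⟩, fun s => e (F s), ?_, e.bijective.comp hF2, ?_⟩
  · intro g
    exact e.continuous.comp ((continuous_const_smul g).comp e.symm.continuous)
  · exact e.continuous.measurable.comp hF1
  · intro g s
    beta_reduce
    rw [ha, e.symm_apply_apply, (hF3 g s (bact g s)).1 rfl]

end meas

end main

end Pool.Agent.Helper81.BA
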